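import Pool.Agent.W622.BK.Stm

/-! Project BK, part SURS (helper253): the surjectivity step. -/

set_option autoImplicit false

namespace Pool.Agent.W253.BK

open Module Pool.Agent.W622.BK

universe u

section

variable {k : Type u} [Field k] {E : Type u} [AddCommGroup E] [Module k E]

/-- the trilinear function `φ(T(e,e')(a,…))` -/
noncomputable def tri {p : ℕ} (T : E →ₗ[k] E →ₗ[k] G k E (p + 1)) (φ : G k E p →ₗ[k] k) :
    E →ₗ[k] E →ₗ[k] E →ₗ[k] k where
  toFun a := T.compr₂ (φ ∘ₗ (LinearMap.applyₗ a) ∘ₗ (cur k E).toLinearMap)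
  map_add' a b := by
    ext e e'
    simp only [LinearMap.compr₂_apply, LinearMap.comp_apply, LinearMap.applyₗ_apply_apply,
      LinearMap.add_apply, LinearEquiv.coe_coe, map_add]
  map_smul' c a := by
    ext e e'
    simp only [LinearMap.compr₂_apply, LinearMap.comp_apply, LinearMap.applyₗ_apply_apply,
      LinearMap.smul_apply, LinearEquiv.coe_coe, map_smul, RingHom.id_apply]

theorem tri_apply {p : ℕ} (T : E →ₗ[k] E →ₗ[k] G k E (p + 1)) (φ : G k E p →ₗ[k] k)
    (a e e' : E) : tri T φ a e e' = φ (cur k E (T e e') a) := rfl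

theorem cc_apply {n : ℕ} (ω : G k E (n + 2)) (e e' : E) :
    cc k E ω e e' = cur k E (cur k E ω e) e' := rfl

theorem memD {R : Submodule k (E →ₗ[k] E →ₗ[k] k)} {X : Submodule k (E →ₗ[k] k)} {n : ℕ}
    {ω : G k E (n + 2)} : ω ∈ D R X (n + 2) ↔
      (∀ e, cur k E ω e ∈ D R X (n + 1)) ∧ InR R (cc k E ω) := Iff.rfl

theorem memD' {R : Submodule k (E →ₗ[k] E →ₗ[k] k)} {X : Submodule k (E →ₗ[k] k)} (p : ℕ)
    {ω : G k E (p + 1)} (h : ω ∈ D R X (p + 1)) (e : E) : cur k E ω e ∈ D R X p := by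
  cases p with
  | zero => exact Submodule.mem_top
  | succ p => exact (memD.1 h).1 e

theorem flip_mem {R : Submodule k (E →ₗ[k] E →ₗ[k] k)} (hR : Alt R) {b : E →ₗ[k] E →ₗ[k] k}
    (hb : b ∈ R) : b.flip ∈ R := by
  have h : b.flip = (-1 : k) • b := by
    ext e e'
    have h1 := hR b hb (e + e')
    have h2 := hR b hb e
    have h3 := hR b hb e'
    simp only [map_add, LinearMap.add_apply, h2, h3, zero_add, add_zero] at h1
    rw [LinearMap.flip_apply, LinearMap.smul_apply, LinearMap.smul_apply, smul_eq_mul]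
    linear_combination h1
  rw [h]
  exact R.smul_mem _ hb

end

theorem t_SURS : Pool.Agent.W622.BK.S_SURS.{u} := by
  intro hALT hMONO hNH hNKILL hKIL hSEC k _ E _ _ R X u x p hR hx hxu hS0 hS1 hEx η hη
  have hNH' : Nn R X u ≤ Hh X u := hNH k E R X u hR
  have hHX : Hh X u ≤ X := inf_le_left
  obtain ⟨σ1, hσ1⟩ := hSEC k E R X u (p + 1) hS1
  obtain ⟨σ0, hσ0⟩ := hSEC k E R X u p hS0
  have hη1 : ∀ e, cur k E η e ∈ D R (Nn R X u) (p + 1) := (memD.1 hη).1
  have hη2 : InR R (cc k E η) := (memD.1 hη).2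
  have hη3 : ∀ e e', cur k E (cur k E η e) e' ∈ D R (Nn R X u) p := fun e e' =>
    memD' p (hη1 e) e'
  have hηH : η ∈ D R (Hh X u) (p + 2) := hMONO k E R _ _ (p + 2) hNH' hη
  have hηX : η ∈ D R X (p + 2) := hMONO k E R _ _ (p + 2) hHX hηH
  have hηu : cur k E η u = 0 := hNKILL hALT k E R X u (p + 1) η hR hηH
  have hηalt := (hALT k E R X p η hR hηX).2
  set W : E →ₗ[k] G k E (p + 2) := x.smulRight η - σ1 ∘ₗ (cur k E η) with hW
  have hWe : ∀ e, W e = x e • η - σ1 (cur k E η e) := fun e => rfl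
  have hWmem : ∀ e, W e ∈ D R X (p + 2) := fun e => by
    rw [hWe]
    exact Submodule.sub_mem _ (Submodule.smul_mem _ _ hηX) (hσ1 _ (hη1 e)).1
  have hWu : W u = η := by rw [hWe, hxu, one_smul, hηu, map_zero, sub_zero]
  have hW1 : ∀ e, cur k E (W e) u = - cur k E η e := fun e => by
    rw [hWe, map_sub, map_smul, LinearMap.sub_apply, LinearMap.smul_apply, hηu, smul_zero,
      (hσ1 _ (hη1 e)).2, zero_sub]
  have hWalt : ∀ e a b, cur k E (cur k E (W e) a) b = - cur k E (cur k E (W e) b) a := fun e =>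
    (hALT k E R X p (W e) hR (hWmem e)).2
  set T : E →ₗ[k] E →ₗ[k] G k E (p + 1) := ((cur k E).toLinearMap ∘ₗ W).flip with hT
  have hTe : ∀ e e', T e e' = cur k E (W e') e := fun e e' => rfl
  set ρ : E →ₗ[k] E →ₗ[k] G k E (p + 1) := ((cc k E η).flip).compr₂ σ0 with hρ
  have hρe : ∀ e e', ρ e e' = σ0 (cur k E (cur k E η e') e) := fun e e' => rfl
  have hρmem : ∀ e e', ρ e e' ∈ D R X (p + 1) := fun e e' => (hσ0 _ (hη3 e' e)).1
  have hρu : ∀ e e', cur k E (ρ e e') u = cur k E (cur k E η e') e := fun e e' =>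
    (hσ0 _ (hη3 e' e)).2
  have hTu : ∀ e e', cur k E (T e e') u = cur k E (cur k E η e') e := fun e e' => by
    rw [hTe, hWalt, hW1, map_neg, LinearMap.neg_apply, neg_neg]
  have hT'e : ∀ e e', (T + (-1 : k) • ρ) e e' = T e e' - ρ e e' := fun e e' => by
    rw [LinearMap.add_apply, LinearMap.add_apply, LinearMap.smul_apply, LinearMap.smul_apply,
      neg_one_smul, sub_eq_add_neg]
  have hT'mem : ∀ e e', (T + (-1 : k) • ρ) e e' ∈ D R (Hh X u) (p + 1) := fun e e' => by
    rw [hT'e]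
    refine hKIL hALT k E R X u p _ hR ?_ ?_
    · exact Submodule.sub_mem _ ((memD.1 (hWmem e')).1 e) (hρmem e e')
    · rw [map_sub, LinearMap.sub_apply, hTu, hρu, sub_self]
  have hCyc : ∀ φ : G k E p →ₗ[k] k,
      Cyc R (fun a e e' => φ (cur k E ((T + (-1 : k) • ρ) e e') a)) := by
    intro φ
    refine ⟨tri T φ, (-1 : k) • tri ρ φ, ?_, ?_, ?_⟩
    · intro a e e'
      show φ (cur k E ((T + (-1 : k) • ρ) e e') a) = _
      rw [LinearMap.smul_apply, LinearMap.smul_apply, LinearMap.smul_apply, tri_apply, tri_apply,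
        hT'e, map_sub, LinearMap.sub_apply, map_sub, smul_eq_mul]
      ring
    · intro e'
      have h1 : (tri T φ).compr₂ (LinearMap.applyₗ e') = (-1 : k) • (cc k E (W e')).compr₂ φ := by
        ext a e
        rw [LinearMap.compr₂_apply, LinearMap.applyₗ_apply_apply, tri_apply, hTe, hWalt, map_neg,
          LinearMap.smul_apply, LinearMap.smul_apply, LinearMap.compr₂_apply, cc_apply,
          smul_eq_mul, neg_one_mul]
      rw [h1]
      exact R.smul_mem _ ((memD.1 (hWmem e')).2 φ)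
    · intro a
      have h1 : ((-1 : k) • tri ρ φ) a = (cc k E η).compr₂
          (φ ∘ₗ (LinearMap.applyₗ a) ∘ₗ (cur k E).toLinearMap ∘ₗ σ0) := by
        ext e e'
        rw [LinearMap.smul_apply, LinearMap.smul_apply, LinearMap.smul_apply, tri_apply, hρe,
          hηalt e' e, map_neg, map_neg, LinearMap.neg_apply, map_neg, smul_eq_mul, neg_one_mul,
          neg_neg]
        rfl
      rw [h1]
      exact hη2 _
  obtain ⟨S, P, hS, hP, hPR, hTSP⟩ := hEx (T + (-1 : k) • ρ) hT'mem hCyc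
  have hcw : cur k E ((cur k E).symm (W - S)) = W - S := LinearEquiv.apply_symm_apply _ _
  have hwmem : (cur k E).symm (W - S) ∈ D R X (p + 1 + 2) := by
    refine memD.2 ⟨fun e => ?_, fun φ => ?_⟩
    · rw [hcw, LinearMap.sub_apply]
      exact Submodule.sub_mem _ (hWmem e) (hMONO k E R _ _ (p + 2) hHX (hS e))
    · have h1 : (cc k E ((cur k E).symm (W - S))).compr₂ φ =
          (P.compr₂ φ).flip + (cc k E η).compr₂ (φ ∘ₗ σ0) := by
        ext e' e
        have h2 : cur k E (W e') e - cur k E (S e') e = P e e' + ρ e e' := by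
          have h3 := hTSP e e'
          rw [hT'e, hTe] at h3
          rw [sub_eq_iff_eq_add] at h3 ⊢
          rw [h3]
          abel
        rw [LinearMap.compr₂_apply, cc_apply, hcw, LinearMap.sub_apply, map_sub,
          LinearMap.sub_apply, h2, map_add]
        rfl
      rw [h1]
      exact R.add_mem (flip_mem hR (hPR φ)) (hη2 _)
  refine ⟨(cur k E).symm (W - S), hwmem, ?_⟩
  apply (cur k E).injective
  ext1 e
  have h4 := (hALT k E R X (p + 1) _ hR hwmem).2 u e
  rw [h4, hcw, LinearMap.sub_apply, map_sub, LinearMap.sub_apply, hW1,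
    hNKILL hALT k E R X u (p + 1) (S e) hR (hS e), sub_zero, neg_neg]

end Pool.Agent.W253.BK
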